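import Mathlib

set_option autoImplicit false

namespace Pool.Agent.Results.MP_2f9b3f_lc.ContextualExtreme

open Finset

/-- A marginal scenario on the variables `Fin n`: a family of subsets closed under taking
subsets and containing the empty set and every singleton. -/
structure Scenario (n : ℕ) where
  mem : Finset (Fin n) → Prop
  down : ∀ S T : Finset (Fin n), mem S → T ⊆ S → mem T
  empty_mem : mem ∅
  single_mem : ∀ i : Fin n, mem {i}

/-- The joint outcomes of the variables in `S`. -/
abbrev Outcome {n : ℕ} (O : Fin n → Type) (S : Finset (Fin n)) : Type :=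
  (i : {i // i ∈ S}) → O i.1

/-- The ambient real vector space: one real number for each face and each joint outcome. -/
abbrev Family {n : ℕ} (M : Scenario n) (O : Fin n → Type) : Type :=
  (S : {S : Finset (Fin n) // M.mem S}) → Outcome O S.1 → ℝ

/-- Restriction of a joint outcome to a smaller set of variables. -/
def restrictTo {n : ℕ} {O : Fin n → Type} {S T : Finset (Fin n)} (h : T ⊆ S)
    (y : Outcome O S) : Outcome O T := fun i => y ⟨i.1, h i.2⟩

/-- The polytope of marginal models: nonnegative, normalised, and consistent families. -/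
def models {n : ℕ} (M : Scenario n) (O : Fin n → Type) [∀ i, Fintype (O i)]
    [∀ i, DecidableEq (O i)] : Set (Family M O) :=
  {p | (∀ S x, 0 ≤ p S x) ∧ (∀ S, ∑ x, p S x = 1) ∧
    ∀ (S T : {S : Finset (Fin n) // M.mem S}) (h : T.1 ⊆ S.1) (x : Outcome O T.1),
      ∑ y ∈ univ.filter (fun y : Outcome O S.1 => restrictTo h y = x), p S y = p T x}

/-- The entropy function of a family (Shannon entropy with natural logarithm). -/
noncomputable def entropy {n : ℕ} {M : Scenario n} {O : Fin n → Type} [∀ i, Fintype (O i)]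
    [∀ i, DecidableEq (O i)] (p : Family M O) (S : {S : Finset (Fin n) // M.mem S}) : ℝ :=
  ∑ x, Real.negMulLog (p S x)

/-- Polymatroids on `Fin n`. -/
structure IsPolymatroid {n : ℕ} (f : Finset (Fin n) → ℝ) : Prop where
  empty : f ∅ = 0
  mono : ∀ S T, S ⊆ T → f S ≤ f T
  submod : ∀ S T, f (S ∪ T) + f (S ∩ T) ≤ f S + f T

/-- A function on the faces is non-contextual if it is the restriction of a polymatroid. -/
def NonContextual {n : ℕ} (M : Scenario n) (g : {S : Finset (Fin n) // M.mem S} → ℝ) : Prop :=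
  ∃ f : Finset (Fin n) → ℝ, IsPolymatroid f ∧ ∀ S, f S.1 = g S

/-! ### The example -/

/-- The facets. -/
def facets : List (Finset (Fin 6)) := [{0, 2, 3}, {0, 1}, {1, 2}, {3, 4}, {4, 5}, {3, 5}]

/-- The scenario. -/
def M6 : Scenario 6 where
  mem S := ∃ F ∈ facets, S ⊆ F
  down S T h hT := by
    obtain ⟨F, hF, hS⟩ := h
    exact ⟨F, hF, hT.trans hS⟩
  empty_mem := ⟨{0, 1}, by simp [facets], Finset.empty_subset _⟩
  single_mem i := by
    fin_cases i
    · exact ⟨{0, 1}, by simp [facets], by decide⟩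
    · exact ⟨{0, 1}, by simp [facets], by decide⟩
    · exact ⟨{1, 2}, by simp [facets], by decide⟩
    · exact ⟨{3, 4}, by simp [facets], by decide⟩
    · exact ⟨{3, 4}, by simp [facets], by decide⟩
    · exact ⟨{4, 5}, by simp [facets], by decide⟩

/-- The local random variables on the four-point uniform space. -/
def X (S : Finset (Fin 6)) (i : Fin 6) (w : Fin 4) : Fin 4 :=
  if i = 0 then (if w.1 < 2 then 0 else 1)
  else if i = 1 then (if w.1 < 2 then 0 else 1)
  else if i = 2 then
    (if 1 ∈ S then (if w.1 < 2 then 0 else 1) else (if w.1 % 2 = 0 then 0 else 1))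
  else if i = 3 then w
  else if i = 4 then w
  else (if 3 ∈ S then w + 1 else w)

/-- The local outcome map. -/
def XS (S : Finset (Fin 6)) (w : Fin 4) : Outcome (fun _ : Fin 6 => Fin 4) S :=
  fun i => X S i.1 w

/-- The model. -/
noncomputable def p6 : Family M6 (fun _ => Fin 4) :=
  fun S x => ∑ w : Fin 4, if XS S.1 w = x then (1 / 4 : ℝ) else 0

/-- The bit swap on `Fin 4`. -/
def bitSwap (w : Fin 4) : Fin 4 := if w = 1 then 2 else if w = 2 then 1 else w

theorem bitSwap_inv (w : Fin 4) : bitSwap (bitSwap w) = w := by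
  fin_cases w <;> decide

theorem mem_facets {F : Finset (Fin 6)} (h : F ∈ facets) :
    F = {0, 2, 3} ∨ F = {0, 1} ∨ F = {1, 2} ∨ F = {3, 4} ∨ F = {4, 5} ∨ F = {3, 5} := by
  simpa [facets] using h

/-- For faces `T ⊆ S`, the local variables of `S` and `T` agree on `T` up to a permutation of
the sample space. -/
theorem exists_perm {S T : Finset (Fin 6)} (hS : M6.mem S) (hTS : T ⊆ S) :
    ∃ e : Fin 4 ≃ Fin 4, ∀ w, ∀ i ∈ T, X S i w = X T i (e w) := by
  obtain ⟨F, hF, hSF⟩ := hS
  by_cases hA : 2 ∈ T ∧ 1 ∈ S ∧ 1 ∉ T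
  · refine ⟨⟨bitSwap, bitSwap, bitSwap_inv, bitSwap_inv⟩, ?_⟩
    have hF2 : F = {1, 2} := by
      have h1 : (1 : Fin 6) ∈ F := hSF hA.2.1
      have h2 : (2 : Fin 6) ∈ F := hSF (hTS hA.1)
      rcases mem_facets hF with h | h | h | h | h | h <;> subst h <;> revert h1 h2 <;> decide
    intro w i hi
    have hiF : i ∈ ({1, 2} : Finset (Fin 6)) := hF2 ▸ hSF (hTS hi)
    have hi2 : i = 2 := by
      simp only [Finset.mem_insert, Finset.mem_singleton] at hiF
      rcases hiF with h | h
      · exact absurd (h ▸ hi) hA.2.2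
      · exact h
    subst hi2
    have e1 : X S 2 w = if w.1 < 2 then 0 else 1 := by simp [X, hA.2.1]
    have e2 : X T 2 (bitSwap w) = if (bitSwap w).1 % 2 = 0 then 0 else 1 := by
      simp [X, hA.2.2]
    show X S 2 w = X T 2 (bitSwap w)
    rw [e1, e2]
    fin_cases w <;> decide
  · by_cases hB : 5 ∈ T ∧ 3 ∈ S ∧ 3 ∉ T
    · refine ⟨Equiv.addRight 1, ?_⟩
      have hF2 : F = {3, 5} := by
        have h1 : (3 : Fin 6) ∈ F := hSF hB.2.1
        have h2 : (5 : Fin 6) ∈ F := hSF (hTS hB.1)
        rcases mem_facets hF with h | h | h | h | h | h <;> subst h <;> revert h1 h2 <;> decide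
      intro w i hi
      have hiF : i ∈ ({3, 5} : Finset (Fin 6)) := hF2 ▸ hSF (hTS hi)
      have hi2 : i = 5 := by
        simp only [Finset.mem_insert, Finset.mem_singleton] at hiF
        rcases hiF with h | h
        · exact absurd (h ▸ hi) hB.2.2
        · exact h
      subst hi2
      have e1 : X S 5 w = w + 1 := by simp [X, hB.2.1]
      have e2 : X T 5 (w + 1) = w + 1 := by simp [X, hB.2.2]
      show X S 5 w = X T 5 (w + 1)
      rw [e1, e2]
    · refine ⟨Equiv.refl _, ?_⟩
      intro w i hi
      show X S i w = X T i w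
      have h12 : 2 ∈ T → (1 ∈ S ↔ 1 ∈ T) := fun h2 =>
        ⟨fun h => by
          by_contra h'
          exact hA ⟨h2, h, h'⟩, fun h => hTS h⟩
      have h35 : 5 ∈ T → (3 ∈ S ↔ 3 ∈ T) := fun h2 =>
        ⟨fun h => by
          by_contra h'
          exact hB ⟨h2, h, h'⟩, fun h => hTS h⟩
      fin_cases i
      · simp [X]
      · simp [X]
      · have := h12 hi
        simp [X, this]
      · simp [X]
      · simp [X]
      · have := h35 hi
        simp [X, this]

theorem p6_mem : p6 ∈ models M6 (fun _ => Fin 4) := by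
  refine ⟨?_, ?_, ?_⟩
  · intro S x
    exact Finset.sum_nonneg fun w _ => by split_ifs <;> norm_num
  · intro S
    unfold p6
    rw [Finset.sum_comm]
    simp
  · intro S T h x
    unfold p6
    rw [Finset.sum_comm]
    obtain ⟨e, he⟩ := exists_perm S.2 h
    have h1 : ∀ w : Fin 4, (∑ y ∈ univ.filter (fun y : Outcome (fun _ : Fin 6 => Fin 4) S.1 =>
        restrictTo h y = x), if XS S.1 w = y then (1 / 4 : ℝ) else 0) =
        if XS T.1 (e w) = x then (1 / 4 : ℝ) else 0 := by
      intro w
      have h2 : restrictTo h (XS S.1 w) = XS T.1 (e w) := by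
        funext i
        exact he w i.1 i.2
      rw [Finset.sum_ite_eq]
      simp only [Finset.mem_filter, Finset.mem_univ, true_and, h2]
    simp only [h1]
    exact Equiv.sum_comp e (fun w => if XS T.1 w = x then (1 / 4 : ℝ) else 0)

/-- A family supported where `p6` is. -/
def Supp (q : Family M6 (fun _ => Fin 4)) : Prop :=
  ∀ S x, (∀ w, XS S.1 w ≠ x) → q S x = 0

theorem p6_supp : Supp p6 := by
  intro S x h
  unfold p6
  exact Finset.sum_eq_zero fun w _ => if_neg (h w)

/-- The singleton face. -/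
def sg (i : Fin 6) : {S : Finset (Fin 6) // M6.mem S} := ⟨{i}, M6.single_mem i⟩

theorem key {q : Family M6 (fun _ => Fin 4)} (hq : q ∈ models M6 (fun _ => Fin 4))
    (hs : Supp q) (S : {S : Finset (Fin 6) // M6.mem S}) (i : Fin 6) (hi : (sg i).1 ⊆ S.1)
    (hdet : ∀ w w', X S.1 i w = X S.1 i w' → XS S.1 w = XS S.1 w') (w : Fin 4) :
    q (sg i) (restrictTo hi (XS S.1 w)) = q S (XS S.1 w) := by
  rw [← hq.2.2 S (sg i) hi]
  refine Finset.sum_eq_single (XS S.1 w) ?_ ?_
  · intro y hy hne
    by_cases hex : ∃ w', XS S.1 w' = y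
    · obtain ⟨w', hw'⟩ := hex
      exfalso
      apply hne
      rw [← hw']
      apply hdet
      have h1 := (Finset.mem_filter.1 hy).2
      rw [← hw'] at h1
      exact congrFun h1 ⟨i, Finset.mem_singleton_self i⟩
    · exact hs S y fun w' hw' => hex ⟨w', hw'⟩
  · intro h
    exfalso
    apply h
    rw [Finset.mem_filter]
    exact ⟨Finset.mem_univ _, rfl⟩

theorem up {q r : Family M6 (fun _ => Fin 4)} (hq : q ∈ models M6 (fun _ => Fin 4))
    (hs : Supp q) (hr : r ∈ models M6 (fun _ => Fin 4)) (hsr : Supp r)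
    (S : {S : Finset (Fin 6) // M6.mem S}) (i : Fin 6) (hi : (sg i).1 ⊆ S.1)
    (hdet : ∀ w w', X S.1 i w = X S.1 i w' → XS S.1 w = XS S.1 w')
    (h : q (sg i) = r (sg i)) : q S = r S := by
  funext x
  by_cases hex : ∃ w, XS S.1 w = x
  · obtain ⟨w, rfl⟩ := hex
    rw [← key hq hs S i hi hdet w, ← key hr hsr S i hi hdet w, h]
  · rw [hs S x fun w hw => hex ⟨w, hw⟩, hsr S x fun w hw => hex ⟨w, hw⟩]

theorem down {q r : Family M6 (fun _ => Fin 4)} (hq : q ∈ models M6 (fun _ => Fin 4))
    (hr : r ∈ models M6 (fun _ => Fin 4))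
    (S T : {S : Finset (Fin 6) // M6.mem S}) (hTS : T.1 ⊆ S.1) (h : q S = r S) : q T = r T := by
  funext x
  rw [← hq.2.2 S T hTS, ← hr.2.2 S T hTS, h]

/-- The facet `{0, 2, 3}`. -/
def g023 : {S : Finset (Fin 6) // M6.mem S} := ⟨{0, 2, 3}, {0, 2, 3}, by simp [facets], by simp⟩

/-- The facet `{0, 1}`. -/
def g01 : {S : Finset (Fin 6) // M6.mem S} := ⟨{0, 1}, {0, 1}, by simp [facets], by simp⟩

/-- The facet `{1, 2}`. -/
def g12 : {S : Finset (Fin 6) // M6.mem S} := ⟨{1, 2}, {1, 2}, by simp [facets], by simp⟩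

/-- The facet `{3, 4}`. -/
def g34 : {S : Finset (Fin 6) // M6.mem S} := ⟨{3, 4}, {3, 4}, by simp [facets], by simp⟩

/-- The facet `{4, 5}`. -/
def g45 : {S : Finset (Fin 6) // M6.mem S} := ⟨{4, 5}, {4, 5}, by simp [facets], by simp⟩

/-- The facet `{3, 5}`. -/
def g35 : {S : Finset (Fin 6) // M6.mem S} := ⟨{3, 5}, {3, 5}, by simp [facets], by simp⟩

/-- The face `{0, 2}`. -/
def g02 : {S : Finset (Fin 6) // M6.mem S} := ⟨{0, 2}, {0, 2, 3}, by simp [facets], by decide⟩

theorem const3 {q : Family M6 (fun _ => Fin 4)} (hq : q ∈ models M6 (fun _ => Fin 4))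
    (hs : Supp q) (x y : Outcome (fun _ : Fin 6 => Fin 4) (sg 3).1) :
    q (sg 3) x = q (sg 3) y := by
  have h34 : ∀ w : Fin 4, q (sg 3) (fun _ => w) = q (sg 4) (fun _ => w) := by
    intro w
    have h1 := key hq hs g34 3 (by decide) (by decide) w
    have h2 := key hq hs g34 4 (by decide) (by decide) w
    rw [← h2] at h1
    have e1 : restrictTo (O := fun _ : Fin 6 => Fin 4) (S := g34.1) (T := (sg 3).1)
        (by decide) (XS g34.1 w) = fun _ => w := by
      funext i
      have : i.1 = 3 := Finset.mem_singleton.1 i.2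
      simp [restrictTo, XS, X, this]
    have e2 : restrictTo (O := fun _ : Fin 6 => Fin 4) (S := g34.1) (T := (sg 4).1)
        (by decide) (XS g34.1 w) = fun _ => w := by
      funext i
      have : i.1 = 4 := Finset.mem_singleton.1 i.2
      simp [restrictTo, XS, X, this]
    rw [e1, e2] at h1
    exact h1
  have h45 : ∀ w : Fin 4, q (sg 4) (fun _ => w) = q (sg 5) (fun _ => w) := by
    intro w
    have h1 := key hq hs g45 4 (by decide) (by decide) w
    have h2 := key hq hs g45 5 (by decide) (by decide) w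
    rw [← h2] at h1
    have e1 : restrictTo (O := fun _ : Fin 6 => Fin 4) (S := g45.1) (T := (sg 4).1)
        (by decide) (XS g45.1 w) = fun _ => w := by
      funext i
      have : i.1 = 4 := Finset.mem_singleton.1 i.2
      simp [restrictTo, XS, X, this]
    have e2 : restrictTo (O := fun _ : Fin 6 => Fin 4) (S := g45.1) (T := (sg 5).1)
        (by decide) (XS g45.1 w) = fun _ => w := by
      funext i
      have : i.1 = 5 := Finset.mem_singleton.1 i.2
      simp [restrictTo, XS, X, this, g45, g35]
    rw [e1, e2] at h1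
    exact h1
  have h35 : ∀ w : Fin 4, q (sg 3) (fun _ => w) = q (sg 5) (fun _ => w + 1) := by
    intro w
    have h1 := key hq hs g35 3 (by decide) (by decide) w
    have h2 := key hq hs g35 5 (by decide) (by decide) w
    rw [← h2] at h1
    have e1 : restrictTo (O := fun _ : Fin 6 => Fin 4) (S := g35.1) (T := (sg 3).1)
        (by decide) (XS g35.1 w) = fun _ => w := by
      funext i
      have : i.1 = 3 := Finset.mem_singleton.1 i.2
      simp [restrictTo, XS, X, this]
    have e2 : restrictTo (O := fun _ : Fin 6 => Fin 4) (S := g35.1) (T := (sg 5).1)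
        (by decide) (XS g35.1 w) = fun _ => w + 1 := by
      funext i
      have : i.1 = 5 := Finset.mem_singleton.1 i.2
      simp [restrictTo, XS, X, this, g45, g35]
    rw [e1, e2] at h1
    exact h1
  have hstep : ∀ w : Fin 4, q (sg 3) (fun _ => w) = q (sg 3) (fun _ => w + 1) := by
    intro w
    rw [h35 w, ← h45, ← h34]
  have hall : ∀ w : Fin 4, q (sg 3) (fun _ => w) = q (sg 3) (fun _ => 0) := by
    intro w
    fin_cases w
    · rfl
    · exact (hstep 0).symm
    · exact ((hstep 0).trans (hstep 1)).symm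
    · exact (((hstep 0).trans (hstep 1)).trans (hstep 2)).symm
  have hc : ∀ x : Outcome (fun _ : Fin 6 => Fin 4) (sg 3).1,
      x = fun _ => x ⟨3, Finset.mem_singleton_self 3⟩ := by
    intro x
    funext i
    have : i = ⟨3, Finset.mem_singleton_self 3⟩ := Subtype.ext (Finset.mem_singleton.1 i.2)
    rw [this]
  rw [hc x, hc y, hall (x ⟨3, Finset.mem_singleton_self 3⟩),
    hall (y ⟨3, Finset.mem_singleton_self 3⟩)]

theorem eq3 {q r : Family M6 (fun _ => Fin 4)} (hq : q ∈ models M6 (fun _ => Fin 4))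
    (hs : Supp q) (hr : r ∈ models M6 (fun _ => Fin 4)) (hsr : Supp r) :
    q (sg 3) = r (sg 3) := by
  have h : ∀ {q : Family M6 (fun _ => Fin 4)}, q ∈ models M6 (fun _ => Fin 4) → Supp q →
      ∀ x, (Fintype.card (Outcome (fun _ : Fin 6 => Fin 4) (sg 3).1) : ℝ) * q (sg 3) x = 1 := by
    intro q hq hs x
    have h1 := hq.2.1 (sg 3)
    rw [Finset.sum_congr rfl fun y _ => const3 hq hs y x] at h1
    simpa using h1
  funext x
  have h1 := h hq hs x
  have h2 := h hr hsr x
  have hpos : (Fintype.card (Outcome (fun _ : Fin 6 => Fin 4) (sg 3).1) : ℝ) ≠ 0 := by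
    intro h0
    rw [h0, zero_mul] at h1
    exact zero_ne_one h1
  exact mul_left_cancel₀ hpos (h1.trans h2.symm)

theorem uniq {q : Family M6 (fun _ => Fin 4)} (hq : q ∈ models M6 (fun _ => Fin 4))
    (hs : Supp q) : q = p6 := by
  have hr := p6_mem
  have hsr := p6_supp
  have e3 := eq3 hq hs hr hsr
  have f023 := up hq hs hr hsr g023 3 (by decide) (by decide) e3
  have f34 := up hq hs hr hsr g34 3 (by decide) (by decide) e3
  have f35 := up hq hs hr hsr g35 3 (by decide) (by decide) e3
  have e4 := down hq hr g34 (sg 4) (by decide) f34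
  have f45 := up hq hs hr hsr g45 4 (by decide) (by decide) e4
  have e0 := down hq hr g023 (sg 0) (by decide) f023
  have e2 := down hq hr g023 (sg 2) (by decide) f023
  have f01 := up hq hs hr hsr g01 0 (by decide) (by decide) e0
  have f12 := up hq hs hr hsr g12 2 (by decide) (by decide) e2
  funext S
  obtain ⟨F, hF, hSF⟩ := S.2
  rcases mem_facets hF with h | h | h | h | h | h <;> subst h
  · exact down hq hr g023 S hSF f023
  · exact down hq hr g01 S hSF f01
  · exact down hq hr g12 S hSF f12
  · exact down hq hr g34 S hSF f34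
  · exact down hq hr g45 S hSF f45
  · exact down hq hr g35 S hSF f35

theorem p6_extreme : p6 ∈ Set.extremePoints ℝ (models M6 (fun _ => Fin 4)) := by
  rw [mem_extremePoints]
  refine ⟨p6_mem, ?_⟩
  rintro q hq r hr ⟨a, b, ha, hb, hab, hp⟩
  have hz : ∀ S x, p6 S x = 0 → q S x = 0 ∧ r S x = 0 := by
    intro S x h0
    have h1 : a * q S x + b * r S x = 0 := by
      have := congrFun (congrFun hp S) x
      simp only [Pi.add_apply, Pi.smul_apply, smul_eq_mul] at this
      rw [this, h0]
    have h2 : 0 ≤ q S x := hq.1 S x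
    have h3 : 0 ≤ r S x := hr.1 S x
    constructor
    · nlinarith [mul_nonneg ha.le h2, mul_nonneg hb.le h3]
    · nlinarith [mul_nonneg ha.le h2, mul_nonneg hb.le h3]
  exact ⟨uniq hq fun S x h => (hz S x (p6_supp S x h)).1,
    uniq hr fun S x h => (hz S x (p6_supp S x h)).2⟩

theorem ent (S : {S : Finset (Fin 6) // M6.mem S}) (m k : ℕ)
    (hm : ∀ w : Fin 4, (univ.filter fun w' => XS S.1 w' = XS S.1 w).card = m)
    (hk : (univ.image (XS S.1)).card = k) :
    entropy p6 S = k * Real.negMulLog (m / 4) := by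
  have h1 : ∀ x, Real.negMulLog (p6 S x) =
      if x ∈ univ.image (XS S.1) then Real.negMulLog ((m : ℝ) / 4) else 0 := by
    intro x
    split_ifs with h
    · obtain ⟨w, -, rfl⟩ := Finset.mem_image.1 h
      congr 1
      unfold p6
      rw [← Finset.sum_filter, Finset.sum_const, hm w]
      simp
      ring
    · rw [p6_supp S x fun w hw => h (Finset.mem_image.2 ⟨w, Finset.mem_univ _, hw⟩)]
      simp
  unfold entropy
  simp only [h1]
  rw [← Finset.sum_filter, Finset.sum_const, nsmul_eq_mul]
  congr 2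
  rw [← hk]
  congr 1
  ext x
  simp

theorem not_noncontextual : ¬ NonContextual M6 (entropy p6) := by
  rintro ⟨f, hf, hfg⟩
  have h1 := hfg (sg 1)
  have h01 := hfg g01
  have h12 := hfg g12
  have h02 := hfg g02
  rw [ent (sg 1) 2 2 (by decide) (by decide)] at h1
  rw [ent g01 2 2 (by decide) (by decide)] at h01
  rw [ent g12 2 2 (by decide) (by decide)] at h12
  rw [ent g02 1 4 (by decide) (by decide)] at h02
  have hs := hf.submod ({0, 1} : Finset (Fin 6)) {1, 2}
  have hm := hf.mono ({0, 2} : Finset (Fin 6)) ({0, 1} ∪ {1, 2}) (by decide)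
  have hi : ({0, 1} ∩ {1, 2} : Finset (Fin 6)) = {1} := by decide
  rw [hi] at hs
  have e1 : f {1} = Real.log 2 := by
    rw [show f {1} = f (sg 1).1 from rfl, h1]
    norm_num [Real.negMulLog]
    have : Real.log (1 / 2) = - Real.log 2 := by
      rw [one_div, Real.log_inv]
    linarith
  have e01 : f {0, 1} = Real.log 2 := by
    rw [show f {0, 1} = f g01.1 from rfl, h01]
    norm_num [Real.negMulLog]
    have : Real.log (1 / 2) = - Real.log 2 := by
      rw [one_div, Real.log_inv]
    linarith
  have e12 : f {1, 2} = Real.log 2 := by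
    rw [show f {1, 2} = f g12.1 from rfl, h12]
    norm_num [Real.negMulLog]
    have : Real.log (1 / 2) = - Real.log 2 := by
      rw [one_div, Real.log_inv]
    linarith
  have e02 : f {0, 2} = 2 * Real.log 2 := by
    rw [show f {0, 2} = f g02.1 from rfl, h02]
    norm_num [Real.negMulLog]
    have : Real.log (1 / 4) = - (2 * Real.log 2) := by
      rw [one_div, Real.log_inv, show (4 : ℝ) = 2 ^ 2 by norm_num, Real.log_pow]
      push_cast
      ring
    linarith
  have hl : 0 < Real.log 2 := Real.log_pos (by norm_num)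
  linarith

/-- There is a marginal scenario, finite outcome sets, and an extreme point of the polytope of
marginal models whose entropy function is not the restriction of a polymatroid. -/
theorem result : ∃ (n : ℕ) (M : Scenario n) (O : Fin n → Type) (_ : ∀ i, Fintype (O i))
    (_ : ∀ i, DecidableEq (O i)) (_ : ∀ i, Nonempty (O i)) (p : Family M O),
    p ∈ Set.extremePoints ℝ (models M O) ∧ ¬ NonContextual M (entropy p) :=
  ⟨6, M6, fun _ => Fin 4, fun _ => inferInstance, fun _ => inferInstance,
    fun _ => inferInstance, p6, p6_extreme, not_noncontextual⟩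

end Pool.Agent.Results.MP_2f9b3f_lc.ContextualExtreme
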